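import Pool.Agent.N874.QM.Stm
import Pool.Agent.N426.PM.GLR

/-!
# QM/FARC: far points over all completions of a number field

Project QM (helper874); this file by helper530, adapted from the theorem far of helper426
(`Pool.Agent.N426.PM.GLR`) and the square roots of principal units of `Pool.Agent.TH115.SD.Hensel`.
-/

set_option autoImplicit false
set_option linter.all false

open Polynomial IsDedekindDomain WeierstrassCurve WeierstrassCurve.Affine
open Pool.Agent.TH115.GD Pool.Agent.N874.PP Pool.Agent.N199.PP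
open scoped Classical

namespace Pool.Agent.N530.QM

open Pool.Agent.N630.PP Pool.Agent.N352.PP Pool.Agent.N426.PM

section hensel

open WithZero Filter Topology

variable {L : Type*} [Field L] [Valued L (WithZero (Multiplicative ℤ))]

/-- The equation `u ^ 2 + u = t` with `t` small. -/
theorem quad_root [CompleteSpace L] [T0Space L] (t : L) (ht : Valued.v t < 1) :
    ∃ u : L, u ^ 2 + u = t ∧ Valued.v u < 1 := by
  let T : L → L := fun z => t - z ^ 2
  obtain ⟨z, z0, zs⟩ : ∃ z : ℕ → L, z 0 = 0 ∧ ∀ n, z (n + 1) = T (z n) :=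
    ⟨fun n => Nat.rec 0 (fun _ y => T y) n, rfl, fun _ => rfl⟩
  set δ := Valued.v t with hδ
  have hT : ∀ y y' : L, Valued.v y ≤ δ → Valued.v y' ≤ δ →
      Valued.v (T y - T y') ≤ δ * Valued.v (y - y') := by
    intro y y' hy hy'
    have e : T y - T y' = (-(y + y')) * (y - y') := by
      simp only [T]
      ring
    rw [e, map_mul]
    refine mul_le_mul_left ?_ _
    rw [Valuation.map_neg]
    exact (Valued.v.map_add _ _).trans (max_le hy hy')
  have hA : ∀ n, Valued.v (z n) ≤ δ := by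
    intro n
    induction n with
    | zero => rw [z0, map_zero]; exact zero_le
    | succ n ih =>
      rw [zs]
      refine (Valued.v.map_sub _ _).trans (max_le le_rfl ?_)
      rw [pow_two, map_mul]
      exact (mul_le_of_le_one_right' (ih.trans ht.le)).trans ih
  have hB : ∀ n, Valued.v (z (n + 1) - z n) ≤ Valued.v (t ^ (n + 1)) := by
    intro n
    induction n with
    | zero =>
      rw [zero_add, pow_one, zs, z0]
      have h4 : T 0 - 0 = t := by
        simp only [T]; ring
      rw [h4]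
    | succ n ih =>
      have h3 := hT (z (n + 1)) (z n) (hA _) (hA _)
      rw [← zs, ← zs] at h3
      refine h3.trans ?_
      rw [pow_succ' t, map_mul]
      exact mul_le_mul_right ih _
  haveI := nonarch (L := L)
  have hlim : Tendsto (fun n => z (n + 1) - z n) atTop (𝓝 0) := by
    have h3 : Tendsto (fun n : ℕ => t ^ (n + 1)) atTop (𝓝 0) :=
      (Valued.tendsto_zero_pow_of_v_lt_one ht).comp (tendsto_add_atTop_nat 1)
    rw [(Valued.hasBasis_nhds_zero L _).tendsto_right_iff] at h3 ⊢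
    intro γ hγ
    filter_upwards [h3 γ hγ] with n hn
    have h4 : (Valued.v (R := L)).restrict (z (n + 1) - z n) ≤
        (Valued.v (R := L)).restrict (t ^ (n + 1)) :=
      (Valuation.restrict_le_iff _).2 (hB n)
    exact lt_of_le_of_lt h4 hn
  have hcau : CauchySeq z := NonarchimedeanAddGroup.cauchySeq_of_tendsto_sub_nhds_zero hlim
  obtain ⟨w, hw⟩ := cauchySeq_tendsto_of_complete hcau
  have hTc : Continuous T := by
    have : Continuous fun y : L => t - y ^ 2 := by fun_prop
    exact this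
  have hw1 : Tendsto (fun n => z (n + 1)) atTop (𝓝 w) := hw.comp (tendsto_add_atTop_nat 1)
  have hw2 : Tendsto (fun n => z (n + 1)) atTop (𝓝 (T w)) := by
    simp only [zs]
    exact (hTc.tendsto w).comp hw
  haveI : T2Space L := inferInstance
  have hfix : T w = w := tendsto_nhds_unique hw2 hw1
  refine ⟨w, ?_, ?_⟩
  · have : t - w ^ 2 = w := hfix
    linear_combination -this
  · have hcl : IsClosed {y : L | (Valued.v (R := L)).restrict y < 1} := by
      have h7 := Valued.isClosed_ball L (1 : MonoidWithZeroHom.ValueGroup₀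
        (.ofClass (Valued.v (R := L))))
      exact h7
    have h8 : w ∈ {y : L | (Valued.v (R := L)).restrict y < 1} := by
      refine hcl.mem_of_tendsto hw (Eventually.of_forall fun n => ?_)
      show (Valued.v (R := L)).restrict (z n) < 1
      rw [Valuation.restrict_lt_one_iff]
      exact lt_of_le_of_lt (hA n) ht
    have h9 : (Valued.v (R := L)).restrict w < 1 := h8
    rwa [Valuation.restrict_lt_one_iff] at h9

end hensel

section far

variable {M R : Type} [Field M] [CommRing R] [IsDedekindDomain R] [Algebra R M]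
  [IsFractionRing R M]

/-- Square roots of elements close to one, in any residue characteristic. -/
theorem sqrt_four (v : HeightOneSpectrum R) (h40 : (4 : v.adicCompletion M) ≠ 0)
    (x : v.adicCompletion M) (hx : vv v (x - 1) < vv v (4 : v.adicCompletion M)) :
    ∃ z, z ^ 2 = x ∧ vv v (z - 1) < 1 := by
  have h4 : vv v (4 : v.adicCompletion M) ≠ 0 := (Valuation.ne_zero_iff _).mpr h40
  have ht : vv v ((x - 1) / 4) < 1 := by
    rw [map_div₀, div_lt_one₀ (zero_lt_iff.mpr h4)]
    exact hx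
  obtain ⟨u, hu, hu1⟩ := quad_root (L := v.adicCompletion M) ((x - 1) / 4) ht
  refine ⟨1 + 2 * u, ?_, ?_⟩
  · have h5 : 4 * (u ^ 2 + u) = x - 1 := by
      rw [hu]
      field_simp
    linear_combination h5
  · have e : 1 + 2 * u - 1 = u + u := by ring
    rw [e]
    exact Valuation.map_add_lt _ hu1 hu1

/-- a point whose order does not divide four -/
theorem far4 (A B : M) (h6 : (6 : M) ≠ 0) (hD : 4 * A ^ 3 + 27 * B ^ 2 ≠ 0)
    (v : HeightOneSpectrum R) :
    ∃ P0 : Pt (sW A B) (Comp R M v), (2 : ℕ) • (2 : ℕ) • P0 ≠ 0 := by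
  have h20 : (2 : M) ≠ 0 := by
    intro h
    apply h6
    linear_combination 3 * h
  have h40 : (4 : M) ≠ 0 := by
    have e : (4 : M) = 2 * 2 := by norm_num
    rw [e]
    exact mul_ne_zero h20 h20
  obtain ⟨s, hs0, hsA, hsB⟩ := exists_small (A / 4) (B / 4) v
  obtain ⟨F, hF⟩ : ∃ F : M →+* v.adicCompletion M, F = algebraMap M (v.adicCompletion M) :=
    ⟨_, rfl⟩
  have hvF : ∀ x, vv v (F x) = v.valuation M x := fun x => by rw [hF]; exact vv_coe v x
  have hS := isS (Ω := Comp R M v) h6 hD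
  have hs' : F s ≠ 0 := (_root_.map_ne_zero _).2 hs0
  have h4F : (4 : v.adicCompletion M) = F 4 := (map_ofNat F 4).symm
  have hv4 : vv v (4 : v.adicCompletion M) ≤ 1 := by
    have e1 : (4 : v.adicCompletion M) = F (algebraMap R M 4) := by
      rw [map_ofNat, map_ofNat]
    rw [e1, hvF]
    exact v.valuation_le_one 4
  have hv40 : 0 < v.valuation M 4 := by
    rw [zero_lt_iff]
    exact (Valuation.ne_zero_iff _).mpr h40
  have hA44 : vv v (F A * F s ^ 4) < vv v (4 : v.adicCompletion M) := by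
    rw [h4F, ← map_pow, ← map_mul, hvF, hvF]
    have e1 : A * s ^ 4 = (A / 4 * s ^ 4) * 4 := by field_simp
    rw [e1, map_mul]
    calc v.valuation M (A / 4 * s ^ 4) * v.valuation M 4 < 1 * v.valuation M 4 :=
          mul_lt_mul_of_pos_right hsA hv40
      _ = v.valuation M 4 := one_mul _
  have hB64 : vv v (F B * F s ^ 6) < vv v (4 : v.adicCompletion M) := by
    rw [h4F, ← map_pow, ← map_mul, hvF, hvF]
    have e1 : B * s ^ 6 = (B / 4 * s ^ 6) * 4 := by field_simp
    rw [e1, map_mul]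
    calc v.valuation M (B / 4 * s ^ 6) * v.valuation M 4 < 1 * v.valuation M 4 :=
          mul_lt_mul_of_pos_right hsB hv40
      _ = v.valuation M 4 := one_mul _
  have hA4 : vv v (F A * F s ^ 4) < 1 := lt_of_lt_of_le hA44 hv4
  have hB6 : vv v (F B * F s ^ 6) < 1 := lt_of_lt_of_le hB64 hv4
  have h3 : vv v (3 : v.adicCompletion M) ≤ 1 := by
    have e1 : (3 : v.adicCompletion M) = F (algebraMap R M 3) := by
      rw [map_ofNat, map_ofNat]
    rw [e1, hvF]
    exact v.valuation_le_one 3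
  have h4c : (4 : v.adicCompletion M) ≠ 0 := by
    rw [h4F]
    exact (_root_.map_ne_zero _).2 h40
  obtain ⟨z, hz, hz1⟩ := sqrt_four v h4c (1 + F A * F s ^ 4 + F B * F s ^ 6) (by
    have e1 : 1 + F A * F s ^ 4 + F B * F s ^ 6 - 1 = F A * F s ^ 4 + F B * F s ^ 6 := by ring
    rw [e1]
    exact Valuation.map_add_lt _ hA44 hB64)
  have hz0 : z ≠ 0 := by
    rintro rfl
    rw [zero_sub, Valuation.map_neg, map_one] at hz1
    exact lt_irrefl _ hz1
  obtain ⟨x0, hx0⟩ : ∃ x0 : Comp R M v, x0 = (F s ^ 2)⁻¹ := ⟨_, rfl⟩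
  obtain ⟨y0, hy0⟩ : ∃ y0 : Comp R M v, y0 = z * (F s ^ 3)⁻¹ := ⟨_, rfl⟩
  have hy00 : y0 ≠ 0 := by
    rw [hy0]
    exact mul_ne_zero hz0 (inv_ne_zero (pow_ne_zero _ hs'))
  have hns : ((sW A B).baseChange (Comp R M v)).toAffine.Nonsingular x0 y0 := by
    have heq : (z * (F s ^ 3)⁻¹) ^ 2 = ((F s ^ 2)⁻¹) ^ 3 + F A * (F s ^ 2)⁻¹ + F B := by
      rw [mul_pow, hz]
      field_simp
    rw [hF] at heq
    rw [hS.nonsingular, hx0, hy0, hF]
    exact heq
  refine ⟨Point.some x0 y0 hns, fun h4 => ?_⟩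
  have h2P : (2 : ℕ) • (Point.some x0 y0 hns : Pt (sW A B) (Comp R M v)) ≠ 0 := by
    rw [two_nsmul]
    intro h
    exact hy00 ((add_self_eq_zero_iff hS hns).1 h)
  rcases tor_cases h6 hD _ h4 with h | ⟨e, he, hT, hR⟩
  · exact h2P h
  obtain ⟨X, Y, hXY, h5, h7⟩ := gp1 M (Comp R M v) A B h6 hD _ h2P
  rw [hT] at h5
  have hXe : e = X := (Point.some.inj h5).1
  have h8 := h7 e hR
  rw [← hXe, sub_self] at h8
  have h9 : rr e (Point.some x0 y0 hns : Pt (sW A B) (Comp R M v)) = 0 :=
    pow_eq_zero_iff (two_ne_zero) |>.1 h8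
  have h10 : (x0 - e) ^ 2 - (3 * e ^ 2 + algebraMap M (Comp R M v) A) = 0 := by
    have h11 : ((x0 - e) ^ 2 - (3 * e ^ 2 + algebraMap M (Comp R M v) A)) / (2 * y0) = 0 := h9
    rcases div_eq_zero_iff.1 h11 with h | h
    · exact h
    · exact absurd h (mul_ne_zero hS.two hy00)
  obtain ⟨e', he'⟩ : ∃ e' : v.adicCompletion M, e' = e := ⟨_, rfl⟩
  have hR' : e' ^ 3 + F A * e' + F B = 0 := by
    rw [he', hF]
    exact hR
  have h10' : ((F s ^ 2)⁻¹ - e') ^ 2 - (3 * e' ^ 2 + F A) = 0 := by
    rw [he', hF]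
    rw [hx0, hF] at h10
    exact h10
  obtain ⟨u, hu⟩ : ∃ u, u = F s ^ 2 * e' := ⟨_, rfl⟩
  have hu1 : u ^ 3 + (F A * F s ^ 4) * u + F B * F s ^ 6 = 0 := by
    rw [hu]
    linear_combination F s ^ 6 * hR'
  have hu2 : (1 - u) ^ 2 = 3 * u ^ 2 + F A * F s ^ 4 := by
    rw [hu]
    have e1 : (1 - F s ^ 2 * e') ^ 2 = F s ^ 4 * ((F s ^ 2)⁻¹ - e') ^ 2 := by
      field_simp
    rw [e1]
    linear_combination F s ^ 4 * h10'
  have hu3 : vv v u < 1 := by
    by_contra hcon
    push Not at hcon
    have e1 : u ^ 3 = -((F A * F s ^ 4) * u + F B * F s ^ 6) := by linear_combination hu1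
    have e2 : vv v (u ^ 3) < vv v u ^ 3 := by
      rw [e1, Valuation.map_neg]
      apply Valuation.map_add_lt
      · rw [map_mul]
        calc vv v (F A * F s ^ 4) * vv v u < 1 * vv v u :=
              mul_lt_mul_of_pos_right hA4 (lt_of_lt_of_le zero_lt_one hcon)
          _ = vv v u ^ 1 := by rw [one_mul, pow_one]
          _ ≤ vv v u ^ 3 := pow_le_pow_right₀ hcon (by norm_num)
      · exact lt_of_lt_of_le hB6 (one_le_pow₀ hcon)
    rw [map_pow] at e2
    exact lt_irrefl _ e2
  have hu4 : vv v ((1 - u) ^ 2) < 1 := by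
    rw [hu2]
    apply Valuation.map_add_lt
    · rw [map_mul, map_pow]
      calc vv v 3 * vv v u ^ 2 ≤ 1 * vv v u ^ 2 := mul_le_mul_left h3 _
        _ = vv v u ^ 2 := one_mul _
        _ < 1 := pow_lt_one₀ zero_le hu3 (by norm_num)
    · exact hA4
  have hu5 : vv v (1 - u) = 1 := by
    have := Valuation.map_sub_eq_of_lt_right (vv v) (x := u) (y := 1) (by rwa [map_one])
    rw [Valuation.map_sub_swap, this, map_one]
  rw [map_pow, hu5, one_pow] at hu4
  exact lt_irrefl _ hu4

end far

/-- QM/FARC -/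
theorem farc : Pool.Agent.N874.QM.S_FARC := by
  intro M _ _ A B hD w
  exact far4 A B (by norm_num) hD w

end Pool.Agent.N530.QM
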